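import Pool.Agent.H21.TU.Loc

/-!
# Project TU: walls give a class in the bottom degree
-/

set_option autoImplicit false

namespace Pool.Agent.H16.TU

open Pool.Agent.H47.ST
open Pool.Agent.H21.TU

variable {ι F : Type*} [Fintype ι] [DecidableEq ι] [Field F]

omit [Fintype ι] [DecidableEq ι] in
theorem TopA_rk_tr {m : ι → ℤ} {σ : Finset (ι → ℤ)} (v : ι → ℤ) :
    Hat_rk (tr m σ) (v + m) = Hat_rk σ v := by
  classical
  have h : (tr m σ).filter (fun w => w < v + m) = tr m (σ.filter (fun w => w < v)) := by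
    ext w
    simp only [Finset.mem_filter, CellA_tr_mem]
    constructor
    · rintro ⟨⟨u, hu, rfl⟩, h⟩
      exact ⟨u, ⟨hu, (add_lt_add_iff_right m).1 h⟩, rfl⟩
    · rintro ⟨u, ⟨hu, h⟩, rfl⟩
      exact ⟨⟨u, hu, rfl⟩, (add_lt_add_iff_right m).2 h⟩
  unfold Hat_rk
  rw [h]
  exact Finset.card_map _

omit [Fintype ι] [DecidableEq ι] in
theorem TopA_en_tr {m : ι → ℤ} {σ : Finset (ι → ℤ)} (h : Simp σ) {i : ℕ} (hi : i < σ.card) :
    en (tr m σ) i = en σ i + m := by
  obtain ⟨h1, h2⟩ := Hat_en h hi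
  have h3 : en σ i + m ∈ tr m σ := CellA_tr_mem.2 ⟨_, h1, rfl⟩
  have h4 := Hat_en_eq (CellA_tr_Simp.2 h) h3
  rwa [TopA_rk_tr, h2] at h4

/-- invariance of a product of increments -/
theorem TopA_wH {V : Type*} (e : V → V) (L : List (V → F)) (hL : ∀ G ∈ L, ∀ v, G (e v) = G v)
    (s : ℕ → V) : wH L (fun i => e (s i)) = wH L s := by
  induction L generalizing s with
  | nil => rfl
  | cons H L ih =>
    have h1 : ∀ t : ℕ → V, wH (H :: L) t = (H (t 1) - H (t 0)) * wH L (sh 1 t) := fun _ => rfl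
    rw [h1, h1, hL H List.mem_cons_self, hL H List.mem_cons_self]
    congr 1
    exact ih (fun G hG => hL G (List.mem_cons_of_mem _ hG)) (sh 1 s)

/-- **Walls give a class in the bottom degree**: walls `l` with zero set away from `V`, detected by
the walls `l'`, whose zero set lies in `X` and is compact outside `V`. -/
theorem TopA_HR {L : AddSubgroup (ι → ℤ)} {X V : Set (ι → ℤ)} (hX : Inv L X)
    {l l' : List ((ι → ℤ) → ℝ)} {δ : ℝ} (hD : Fintype.card ι = l.length + l'.length)
    (hvar : ∀ g ∈ l ++ l', ∀ v w, Near v w → |g v - g w| ≤ δ)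
    (hper : ∀ g ∈ l, ∀ m ∈ L, ∀ v, g (v + m) = g v)
    (hneg : ∀ v, (∀ g ∈ l, |g v| ≤ δ) → v ∉ V)
    (hX' : ∀ v, (∀ g ∈ l', |g v| ≤ 2 * δ) → v ∈ X) (R : Finset (ι → ℤ))
    (hR : ∀ v w x, w ∉ V → (∀ g ∈ l', |g w| ≤ 2 * δ) → Near w v → Near x v → x ∈ R)
    (hphi : Phi (F := F) R 0 (fun _ => 1) (l ++ l') ≠ 0) : ¬ HR F L X V l.length 0 := by
  classical
  intro hHR
  obtain ⟨b, hb⟩ : ∃ b, b = l.length := ⟨_, rfl⟩
  have hvar1 : ∀ g ∈ l, ∀ v w, Near v w → |g v - g w| ≤ δ := fun g hg =>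
    hvar g (List.mem_append_left _ hg)
  have hvar2 : ∀ g ∈ l', ∀ v w, Near v w → |g v - g w| ≤ δ := fun g hg =>
    hvar g (List.mem_append_right _ hg)
  obtain ⟨c, hc⟩ : ∃ c : K (ι → ℤ) F, c = wH (l.map (st F)) := ⟨_, rfl⟩
  have hdep : Dep b c := by
    have h := Dep.wH (l.map (st F))
    rw [List.length_map] at h
    rw [hc, hb]
    exact h
  have hd0 : d b c = 0 := by
    have h := d_wH (l.map (st F))
    rw [List.length_map] at h
    rw [hc, hb]
    exact h
  obtain ⟨u, hu⟩ : ∃ u : Co ι F, u = cut (In X) (fl b c) := ⟨_, rfl⟩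
  have hu1 : ∀ σ, In X σ → u σ = fl b c σ := fun σ hσ => by
    rw [hu, cut_apply, if_pos hσ]
  have hcs : ∀ s : ℕ → ι → ℤ, Ch b s → c s ≠ 0 → ∀ g ∈ l, |g (s 0)| ≤ δ := by
    intro s hs hne g hg
    rw [hc] at hne
    obtain ⟨i, hi, h1⟩ := wH_ne hne (st F g) (List.mem_map_of_mem hg)
    rw [List.length_map] at hi
    exact st_ch (hvar1 g hg) (hs.near (by omega) (Nat.zero_le _))
      (hs.near (by omega) (Nat.zero_le _)) h1
  have hco : u ∈ co (F := F) L X V (b + 1) := by
    refine ⟨fun m hm σ => ?_, fun σ hσ => ?_⟩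
    · rw [hu, cut_apply, cut_apply]
      by_cases hI : In X σ
      · rw [if_pos hI, if_pos ((CellA_tr_In hX hm).2 hI)]
        unfold fl
        by_cases h1 : Simp σ ∧ σ.card = b + 1
        · rw [if_pos h1, if_pos ⟨CellA_tr_Simp.2 h1.1, by rw [Loc_card_tr]; exact h1.2⟩]
          have h2 : c (en (tr m σ)) = c (fun i => en σ i + m) :=
            hdep _ _ fun i hi => TopA_en_tr h1.1 (by omega)
          rw [h2, hc]
          refine TopA_wH (fun v => v + m) _ ?_ _
          intro G hG v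
          obtain ⟨g, hg, rfl⟩ := List.mem_map.1 hG
          unfold st
          rw [hper g hg m hm v]
        · rw [if_neg h1, if_neg]
          rintro ⟨h2, h3⟩
          rw [Loc_card_tr] at h3
          exact h1 ⟨CellA_tr_Simp.1 h2, h3⟩
      · rw [if_neg hI, if_neg (fun h => hI ((CellA_tr_In hX hm).1 h))]
    · have hI : In X σ := by
        by_contra hI
        exact hσ (by rw [hu, cut_apply, if_neg hI])
      rw [hu1 σ hI] at hσ
      obtain ⟨h1, h2⟩ := fl_card c hσ
      obtain ⟨h3, h4, h5⟩ := en_spec h1 h2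
      refine ⟨hI, fun h6 => ?_, h2⟩
      have h7 : c (en σ) ≠ 0 := by
        have : fl b c σ = c (en σ) := by
          unfold fl
          rw [if_pos ⟨h1, h2⟩]
        rwa [this] at hσ
      have h8 : en σ 0 ∈ (Finset.range (b + 1)).image (en σ) :=
        Finset.mem_image.2 ⟨0, Finset.mem_range.2 (by omega), rfl⟩
      rw [h5] at h8
      exact hneg (en σ 0) (hcs _ h4 h7) (h6 _ h8)
  have hdu : dX X u = 0 := by
    ext σ
    rw [dX_apply]
    split_ifs with hI
    · have h1 : ∀ v ∈ σ, sgn F σ v * u (σ.erase v) = sgn F σ v * fl b c (σ.erase v) :=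
        fun v _ => by rw [hu1 _ (CellA_In_erase hI v)]
      rw [Finset.sum_congr rfl h1]
      by_cases h2 : σ.card = b + 2
      · have h3 := dd_fl (F := F) hdep hI.1 h2
        rw [dd_apply] at h3
        rw [h3]
        unfold fl
        rw [if_pos ⟨hI.1, h2⟩, hd0]
        rfl
      · refine Finset.sum_eq_zero fun v hv => ?_
        have h3 : fl b c (σ.erase v) = 0 := by
          unfold fl
          rw [if_neg]
          rintro ⟨-, h4⟩
          rw [Finset.card_erase_of_mem hv] at h4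
          have h5 : 0 < σ.card := Finset.card_pos.2 ⟨v, hv⟩
          omega
        rw [h3, mul_zero]
    · rfl
  unfold HR at hHR
  rw [RK_zero, ← hb] at hHR
  obtain ⟨y, hy, hyu⟩ := hHR u hco (by rw [hdu]; exact Submodule.zero_mem _)
  rw [Submodule.mem_bot, sub_eq_zero] at hyu
  -- the simplices near the zero set of `l'` lie in `X`
  have hnear : ∀ v (π : Fin (Fintype.card ι) ≃ ι), (∀ g ∈ l', |g v| ≤ δ) → ∀ p : ℕ,
      p ≤ Fintype.card ι → In X ((Finset.range (p + 1)).image (kv v π)) ∧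
        ((Finset.range (p + 1)).image (kv v π)).card = p + 1 ∧
        ∀ i ≤ p, en ((Finset.range (p + 1)).image (kv v π)) i = kv v π i := by
    intro v π hv p hp
    obtain ⟨h1, h2, h3⟩ := en_image (p := p) (s := kv v π)
      (fun i hi => kv_lt v π (by omega)) (ch_kv v π p)
    refine ⟨⟨h1, fun w hw => ?_⟩, h2, h3⟩
    obtain ⟨i, hi, rfl⟩ := Finset.mem_image.1 hw
    refine hX' _ fun g hg => ?_
    have h4 : Near (kv v π i) v := by
      have h5 := (ch_kv v π i).near (i := i) (j := 0) le_rfl (Nat.zero_le _)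
      rwa [kv_zero] at h5
    have h5 := abs_le.1 (hvar2 g hg _ _ h4)
    have h6 := abs_le.1 (hv g hg)
    rw [abs_le]
    constructor <;> linarith [h5.1, h5.2, h6.1, h6.2]
  have hA : Phi R b (hat b u) l' = Phi R b c l' := by
    refine Phi_congr R (by omega) hvar2 fun v _ π hv => ?_
    obtain ⟨h1, h2, h3⟩ := hnear v π hv b (by omega)
    rw [hat_kv v π (by omega), hu1 _ h1]
    unfold fl
    rw [if_pos ⟨h1.1, h2⟩]
    exact hdep _ _ h3
  have hB : Phi R b c l' ≠ 0 := by
    rw [hc, hb, Phi_wH]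
    exact hphi
  refine hB (hA.symm.trans ?_)
  obtain _ | p := b
  · have hy0 : y = 0 := by
      ext σ
      by_contra hσ
      obtain ⟨-, h2, h3⟩ := hy.2 σ hσ
      rw [Finset.card_eq_zero] at h3
      exact h2 (by rw [h3]; intro v hv; exact absurd hv (Finset.notMem_empty v))
    have h1 : hat 0 u = (0 : F) • (fun _ => 1 : K (ι → ℤ) F) := by
      rw [hyu, hy0, map_zero]
      funext s
      unfold hat
      simp
    rw [h1, Phi_smul, zero_mul]
  · have hC : Phi R (p + 1) (hat (p + 1) u) l' = Phi R (p + 1) (d p (hat p y)) l' := by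
      refine Phi_congr R (by omega) hvar2 fun v _ π hv => ?_
      obtain ⟨h1, -, -⟩ := hnear v π hv (p + 1) (by omega)
      rw [d_hat_kv v π (by omega), hat_kv v π (by omega), hat_kv v π (by omega), hyu, dX_apply,
        if_pos h1, dd_apply]
    rw [hC]
    refine Phi_exact R (Dep.hat p y) (by omega) hvar2 fun s hs hne hg => Or.inl fun x hx => ?_
    unfold hat at hne
    split_ifs at hne with h1
    · obtain ⟨-, h2, -⟩ := hy.2 _ hne
      push Not at h2
      obtain ⟨w, hw, hwV⟩ := h2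
      obtain ⟨i, hi, rfl⟩ := Finset.mem_image.1 hw
      have hi' := Finset.mem_range.1 hi
      have h3 : Near (s i) (s 0) := hs.near (by omega) (Nat.zero_le _)
      refine hR (s 0) (s i) x hwV (fun g hg' => ?_) h3 hx
      have h5 := abs_le.1 (hvar2 g hg' _ _ h3)
      have h6 := abs_le.1 (hg g hg')
      rw [abs_le]
      constructor <;> linarith [h5.1, h5.2, h6.1, h6.2]
    · exact absurd rfl hne

end Pool.Agent.H16.TU
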