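import Pool.Agent.H16.TU.Spec
import Pool.Agent.H16.TU.TopA
import Pool.Agent.H21.TU.HomS

/-!
# Project TU: the bottom class of the domain

The class of degree `n * (K - 1)`: walls along the negative eigenvectors of `DK` (`Spec.lean`),
the abstract statement of `TopA.lean`, and the class of independent linear functions of
`H21/TU/Loc.lean`.
-/

set_option autoImplicit false

namespace Pool.Agent.H16.TU

open Filter Topology
open Pool.Agent.H47.ST
open Pool.Agent.H21.TU

section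

variable {n K : ℕ} [NeZero K] {B : Matrix (Iz n K) (Iz n K) ℝ} {ev : Iz n K → ℝ}

omit [NeZero K] in
theorem Top_B_le (h1 : B * B.transpose = 1) (k a : Iz n K) : |B k a| ≤ 1 := by
  classical
  have h4 : ∑ a, B k a ^ 2 = 1 := by
    have h5 := congrFun (congrFun h1 k) k
    rw [Matrix.mul_apply, Matrix.one_apply, if_pos rfl] at h5
    rw [← h5]
    exact Finset.sum_congr rfl fun a _ => by rw [Matrix.transpose_apply]; ring
  have h6 : B k a ^ 2 ≤ 1 := by
    rw [← h4]
    exact Finset.single_le_sum (f := fun a => B k a ^ 2) (fun c _ => sq_nonneg _)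
      (Finset.mem_univ a)
  rw [abs_le]
  constructor <;> nlinarith

omit [NeZero K] in
theorem Top_cc_le (h1 : B * B.transpose = 1) (y : Iz n K → ℝ) (k : Iz n K) :
    |cc B y k| ≤ Fintype.card (Iz n K) * ‖y‖ := by
  unfold cc
  refine (Finset.abs_sum_le_sum_abs _ _).trans ?_
  have h2 : ∀ a ∈ Finset.univ, |B k a * y a| ≤ ‖y‖ := by
    intro a _
    rw [abs_mul]
    have h3 : |y a| ≤ ‖y‖ := norm_le_pi_norm y a
    calc |B k a| * |y a| ≤ 1 * ‖y‖ :=
          mul_le_mul (Top_B_le h1 k a) h3 (abs_nonneg _) zero_le_one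
      _ = ‖y‖ := one_mul _
  refine (Finset.sum_le_sum h2).trans ?_
  rw [Finset.sum_const, nsmul_eq_mul]
  rfl

omit [NeZero K] in
theorem Top_cc_sub (s t : Iz n K → ℝ) (k : Iz n K) : cc B (s - t) k = cc B s k - cc B t k := by
  unfold cc
  rw [← Finset.sum_sub_distrib]
  exact Finset.sum_congr rfl fun a _ => by rw [Pi.sub_apply]; ring

/-- near the nonnegative subspace -/
theorem Top_neg (h1 : B * B.transpose = 1) (h2 : B.transpose * B = 1)
    (hB : ∀ k a, DK n K (B k) a = ev k * B k a) {δ : ℝ} {t : Iz n K → ℝ}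
    (ht : ∀ k, ev k < 0 → |cc B t k| ≤ δ) :
    -(Fintype.card (Iz n K) * δ ^ 2) ≤ QK n K t := by
  rw [cc_QK h2 hB]
  have h3 : ∀ k ∈ Finset.univ, -(2 * δ ^ 2) ≤ ev k * cc B t k ^ 2 := by
    intro k _
    have hl := abs_le.1 (lam_le h1 hB k)
    by_cases hk : ev k < 0
    · have h4 : cc B t k ^ 2 ≤ δ ^ 2 := sq_le_sq' (abs_le.1 (ht k hk)).1 (abs_le.1 (ht k hk)).2
      nlinarith [sq_nonneg (cc B t k)]
    · have h4 : 0 ≤ ev k * cc B t k ^ 2 := mul_nonneg (not_lt.1 hk) (sq_nonneg _)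
      nlinarith [sq_nonneg δ]
  have h4 := Finset.sum_le_sum h3
  rw [Finset.sum_const, nsmul_eq_mul] at h4
  have h5 : ((Finset.univ : Finset (Iz n K)).card : ℝ) = Fintype.card (Iz n K) := rfl
  rw [h5] at h4
  linarith

/-- near the negative subspace -/
theorem Top_pos (h1 : B * B.transpose = 1) (h2 : B.transpose * B = 1)
    (hB : ∀ k a, DK n K (B k) a = ev k * B k a) {δ : ℝ} {t : Iz n K → ℝ}
    (ht : ∀ k, ¬ ev k < 0 → |cc B t k| ≤ δ) :
    qK n K t ≤ 3 * (Fintype.card (Iz n K) * δ ^ 2) := by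
  rw [cc_qK h2 hB]
  have h3 : ∀ k ∈ Finset.univ, (ev k + ev k ^ 2 / 4) * cc B t k ^ 2 ≤ 3 * δ ^ 2 := by
    intro k _
    have hl := abs_le.1 (lam_le h1 hB k)
    by_cases hk : ev k < 0
    · have h4 : ev k + ev k ^ 2 / 4 ≤ 0 := by nlinarith
      have h5 : (ev k + ev k ^ 2 / 4) * cc B t k ^ 2 ≤ 0 :=
        mul_nonpos_of_nonpos_of_nonneg h4 (sq_nonneg _)
      nlinarith [sq_nonneg δ]
    · have h4 : cc B t k ^ 2 ≤ δ ^ 2 := sq_le_sq' (abs_le.1 (ht k hk)).1 (abs_le.1 (ht k hk)).2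
      have h5 : ev k + ev k ^ 2 / 4 ≤ 3 := by nlinarith [not_lt.1 hk]
      have h6 : 0 ≤ ev k + ev k ^ 2 / 4 := by nlinarith [not_lt.1 hk, sq_nonneg (ev k)]
      exact mul_le_mul h5 h4 (sq_nonneg _) (by norm_num)
  have h4 := Finset.sum_le_sum h3
  rw [Finset.sum_const, nsmul_eq_mul] at h4
  have h5 : ((Finset.univ : Finset (Iz n K)).card : ℝ) = Fintype.card (Iz n K) := rfl
  rw [h5] at h4
  linarith

/-- near the negative subspace, above a level of `Q` -/
theorem Top_bdd (h1 : B * B.transpose = 1) (h2 : B.transpose * B = 1)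
    (hB : ∀ k a, DK n K (B k) a = ev k * B k a) (δ a : ℝ) : ∃ r : ℝ, ∀ t : Iz n K → ℝ,
      (∀ k, ¬ ev k < 0 → |cc B t k| ≤ δ) → -a < QK n K t → ‖t‖ ≤ r := by
  classical
  obtain ⟨μ, hμ, hl⟩ : ∃ μ > 0, ∀ k, ev k < 0 → ev k ≤ -μ := by
    rcases (Finset.univ.filter fun k => ev k < 0).eq_empty_or_nonempty with h | h
    · refine ⟨1, one_pos, fun k hk => ?_⟩
      have h3 : k ∈ Finset.univ.filter fun k => ev k < 0 :=
        Finset.mem_filter.2 ⟨Finset.mem_univ _, hk⟩
      rw [h] at h3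
      exact absurd h3 (Finset.notMem_empty k)
    · obtain ⟨k0, hk0, hmax⟩ := Finset.exists_max_image _ ev h
      have h3 := (Finset.mem_filter.1 hk0).2
      exact ⟨-ev k0, by linarith, fun k hk => by
        have := hmax k (Finset.mem_filter.2 ⟨Finset.mem_univ _, hk⟩)
        linarith⟩
  refine ⟨Real.sqrt ((2 * a + Fintype.card (Iz n K) * ((μ + 2) * δ ^ 2)) / μ), fun t ht hQ => ?_⟩
  have h3 : ∀ k ∈ Finset.univ, ev k * cc B t k ^ 2 ≤ -μ * cc B t k ^ 2 + (μ + 2) * δ ^ 2 := by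
    intro k _
    have hl' := abs_le.1 (lam_le h1 hB k)
    by_cases hk : ev k < 0
    · have h4 := hl k hk
      nlinarith [sq_nonneg (cc B t k), sq_nonneg δ, mul_pos hμ hμ]
    · have h4 : cc B t k ^ 2 ≤ δ ^ 2 := sq_le_sq' (abs_le.1 (ht k hk)).1 (abs_le.1 (ht k hk)).2
      have h5 : ev k * cc B t k ^ 2 ≤ 2 * δ ^ 2 :=
        mul_le_mul hl'.2 h4 (sq_nonneg _) (by norm_num)
      nlinarith [sq_nonneg (cc B t k), sq_nonneg δ]
  have h4 := Finset.sum_le_sum h3
  rw [Finset.sum_add_distrib, ← Finset.mul_sum, Finset.sum_const, nsmul_eq_mul] at h4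
  have h5 : ((Finset.univ : Finset (Iz n K)).card : ℝ) = Fintype.card (Iz n K) := rfl
  rw [h5] at h4
  rw [cc_QK h2 hB] at hQ
  have h6 : ∑ a, t a ^ 2 = ∑ k, cc B t k ^ 2 := by
    have h7 := cc_par h2 t t
    rw [Finset.sum_congr rfl fun a _ => pow_two (t a), h7]
    exact Finset.sum_congr rfl fun k _ => (pow_two _).symm
  have h7 : ∑ a, t a ^ 2 ≤ (2 * a + Fintype.card (Iz n K) * ((μ + 2) * δ ^ 2)) / μ := by
    rw [le_div_iff₀ hμ, h6]
    linarith
  refine (pi_norm_le_iff_of_nonneg (Real.sqrt_nonneg _)).2 fun i => ?_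
  rw [Real.norm_eq_abs]
  refine Real.abs_le_sqrt (le_trans ?_ h7)
  exact Finset.single_le_sum (f := fun a => t a ^ 2) (fun c _ => sq_nonneg _) (Finset.mem_univ i)

/-- the coordinates along negative eigenvectors are periodic -/
theorem Top_per (hB : ∀ k a, DK n K (B k) a = ev k * B k a) {k : Iz n K} (hk : ev k < 0) :
    PerL (Lc n K) (fun y => cc B y k) := by
  intro l hl y
  have h0 : ∀ a, DK n K (rl l) a = 0 := by
    obtain ⟨c, hc⟩ := hl
    rintro ⟨j, i | i⟩
    · simp [DomK_inl, rl, hc]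
    · simp [DomK_inr, rl, hc]
  have h1 := cc_D hB (rl l) k
  have h2 : cc B (DK n K (rl l)) k = 0 := by
    unfold cc
    exact Finset.sum_eq_zero fun a _ => by rw [h0, mul_zero]
  rw [h2] at h1
  have h3 : cc B (rl l) k = 0 := by
    rcases mul_eq_zero.1 h1.symm with h | h
    · exact absurd h hk.ne
    · exact h
  show cc B (y + rl l) k = cc B y k
  rw [cc_add, h3, add_zero]

end

/-- **The bottom class of the domain.** -/
theorem top_HR (F : Type*) [Field F] (n K : ℕ) [NeZero K] {R a : ℝ} (hR : 0 < R) (ha : 0 < a) :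
    ∀ᶠ M : ℕ in atTop, ¬ HR F (lam (Lc n K) M) (Xm (qK n K) R M) (Am (qK n K) (QK n K) R a M)
      (n * (K - 1)) 0 := by
  classical
  obtain ⟨B, μ, h1, h2, hB⟩ := spec n K
  have hN0 : (0 : ℝ) ≤ Fintype.card (Iz n K) := Nat.cast_nonneg _
  obtain ⟨N, hN⟩ : ∃ N : ℝ, N = Fintype.card (Iz n K) := ⟨_, rfl⟩
  rw [← hN] at hN0
  -- the size of the neighbourhoods
  obtain ⟨δ, hδ, hδ1, hδR, hδa⟩ : ∃ δ : ℝ, 0 < δ ∧ δ ≤ 1 ∧ 12 * (N * δ) ≤ R ∧ N * δ < a := by
    refine ⟨min 1 (min (R / (12 * (N + 1))) (a / (N + 1))), by positivity, min_le_left _ _, ?_, ?_⟩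
    · have h3 : min 1 (min (R / (12 * (N + 1))) (a / (N + 1))) ≤ R / (12 * (N + 1)) :=
        (min_le_right _ _).trans (min_le_left _ _)
      have h4 : 0 < min 1 (min (R / (12 * (N + 1))) (a / (N + 1))) := by positivity
      rw [le_div_iff₀ (by positivity)] at h3
      nlinarith
    · have h3 : min 1 (min (R / (12 * (N + 1))) (a / (N + 1))) ≤ a / (N + 1) :=
        (min_le_right _ _).trans (min_le_right _ _)
      have h4 : 0 < min 1 (min (R / (12 * (N + 1))) (a / (N + 1))) := by positivity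
      rw [le_div_iff₀ (by positivity)] at h3
      nlinarith
  obtain ⟨r, hr⟩ := Top_bdd h1 h2 hB (2 * δ) a
  -- the lists
  obtain ⟨LN, hLN⟩ : ∃ L, L = (Finset.univ.filter fun k => μ k < 0).toList := ⟨_, rfl⟩
  obtain ⟨LP, hLP⟩ : ∃ L, L = (Finset.univ.filter fun k => ¬ μ k < 0).toList := ⟨_, rfl⟩
  have mN : ∀ k, k ∈ LN ↔ μ k < 0 := fun k => by
    rw [hLN, Finset.mem_toList, Finset.mem_filter]
    exact ⟨fun h => h.2, fun h => ⟨Finset.mem_univ _, h⟩⟩
  have mP : ∀ k, k ∈ LP ↔ ¬ μ k < 0 := fun k => by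
    rw [hLP, Finset.mem_toList, Finset.mem_filter]
    exact ⟨fun h => h.2, fun h => ⟨Finset.mem_univ _, h⟩⟩
  have lN : LN.length = n * (K - 1) := by
    rw [hLN, Finset.length_toList, ← card_neg h1 h2 hB, Fintype.card_subtype]
  have lNP : (LN ++ LP).length = Fintype.card (Iz n K) := by
    rw [List.length_append, hLN, hLP, Finset.length_toList, Finset.length_toList]
    exact Finset.card_filter_add_card_filter_not _
  have hnd : (LN ++ LP).Nodup := by
    refine List.Nodup.append (by rw [hLN]; exact Finset.nodup_toList _)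
      (by rw [hLP]; exact Finset.nodup_toList _) ?_
    intro k h3 h4
    exact (mP k).1 h4 ((mN k).1 h3)
  obtain ⟨c, hc⟩ : ∃ c : Fin (Fintype.card (Iz n K)) → Iz n K → ℝ,
      c = fun j => B ((LN ++ LP).get (Fin.cast lNP.symm j)) := ⟨_, rfl⟩
  have hlin : rlin c 0 = (LN ++ LP).map fun k y => cc B y k := by
    refine List.ext_getElem ?_ fun i h3 h4 => ?_
    · rw [List.length_map, lNP]
      exact List.length_ofFn
    · unfold rlin
      rw [List.getElem_ofFn, List.getElem_map]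
      funext y
      unfold cc
      refine Finset.sum_congr rfl fun b _ => ?_
      rw [Pi.zero_apply, sub_zero]
      simp only [hc]
      rfl
  have hind : LinearIndependent ℝ c := by
    have h3 : LinearIndependent ℝ B.row :=
      Matrix.linearIndependent_rows_iff_isUnit.2 ⟨⟨B, B.transpose, h1, h2⟩, rfl⟩
    have h4 : Function.Injective fun j : Fin (Fintype.card (Iz n K)) =>
        (LN ++ LP).get (Fin.cast lNP.symm j) := by
      intro i j hij
      have h5 := List.nodup_iff_injective_get.1 hnd hij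
      exact Fin.cast_injective _ h5
    have h5 := h3.comp _ h4
    rw [hc]
    exact h5
  filter_upwards [Phi_rlin F c hind 0 (ρ := max r 0 + 2) (by positivity),
    one_div_small (η := δ / (N + 1)) (by positivity), eventually_ge_atTop 1] with M hM1 hM2 hM3
  obtain ⟨hM0, hM2⟩ := hM2
  have hM0' : (0 : ℝ) < M := Nat.cast_pos.2 hM0
  have hM1' : (1 : ℝ) / M ≤ 1 := by
    rw [div_le_one hM0']
    exact_mod_cast hM3
  obtain ⟨w, hw⟩ : ∃ w : Iz n K → (Iz n K → ℤ) → ℝ, w = fun k => gr M (fun y => cc B y k) :=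
    ⟨_, rfl⟩
  have hwv : ∀ k v, w k v = cc B (ps M v) k := fun k v => by rw [hw]; rfl
  have hmap : ∀ L : List (Iz n K), (L.map fun k y => cc B y k).map (gr M) = L.map w := by
    intro L
    rw [List.map_map, hw]
    rfl
  have hvar : ∀ k (v u : Iz n K → ℤ), Near v u → |w k v - w k u| ≤ δ := by
    intro k v u hvu
    rw [hwv, hwv, ← Top_cc_sub]
    refine (Top_cc_le h1 _ k).trans ?_
    rw [← hN]
    have h3 := (ps_near hM0 hvu).trans hM2
    have h4 : N * ‖ps M v - ps M u‖ ≤ N * (δ / (N + 1)) := mul_le_mul_of_nonneg_left h3 hN0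
    refine h4.trans ?_
    rw [mul_div_assoc', div_le_iff₀ (by positivity)]
    nlinarith
  have hqp := (dom_Dm n K one_pos R a).qp
  have hQp := (dom_Dm n K one_pos R a).Qp
  simp only [one_mul] at hqp hQp
  have hX : Inv (lam (Lc n K) M) (Xm (qK n K) R M) := Xm_inv hqp R hM0
  have hinX : ∀ v, (∀ g ∈ LP.map w, |g v| ≤ 2 * δ) → v ∈ Xm (qK n K) R M := by
    intro v hv
    have h3 : ∀ k, ¬ μ k < 0 → |cc B (ps M v) k| ≤ 2 * δ := fun k hk => by
      rw [← hwv]
      exact hv _ (List.mem_map_of_mem ((mP k).2 hk))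
    have h4 := Top_pos h1 h2 hB h3
    rw [← hN] at h4
    show qK n K (ps M v) ≤ R
    have h5 : δ ^ 2 ≤ δ := by nlinarith
    nlinarith [mul_le_mul_of_nonneg_left h5 hN0]
  have hfin := TopA_HR (F := F) (V := Am (qK n K) (QK n K) R a M) hX (l := LN.map w)
    (l' := LP.map w) (δ := δ)
    (by rw [List.length_map, List.length_map, ← List.length_append, lNP])
    (fun g hg => by
      rw [← List.map_append] at hg
      obtain ⟨k, -, rfl⟩ := List.mem_map.1 hg
      exact hvar k)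
    (fun g hg m hm v => by
      obtain ⟨k, hk, rfl⟩ := List.mem_map.1 hg
      rw [hwv, hwv]
      exact Fine_inv (Top_per hB ((mN k).1 hk)) hM0 hm v)
    (fun v hv hvV => by
      have h3 : ∀ k, μ k < 0 → |cc B (ps M v) k| ≤ δ := fun k hk => by
        rw [← hwv]
        exact hv _ (List.mem_map_of_mem ((mN k).2 hk))
      have h4 := Top_neg h1 h2 hB h3
      rw [← hN] at h4
      have h5 : QK n K (ps M v) ≤ -a := hvV.2
      have h6 : δ ^ 2 ≤ δ := by nlinarith
      nlinarith [mul_le_mul_of_nonneg_left h6 hN0])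
    hinX (blf M 0 (max r 0 + 2))
    (fun v u x hu hg huv hxv => by
      rw [mem_blf hM0, sub_zero]
      have h3 : ∀ k, ¬ μ k < 0 → |cc B (ps M u) k| ≤ 2 * δ := fun k hk => by
        rw [← hwv]
        exact hg _ (List.mem_map_of_mem ((mP k).2 hk))
      have h4 : -a < QK n K (ps M u) := by
        by_contra h5
        exact hu ⟨hinX u hg, not_lt.1 h5⟩
      have h5 := hr _ h3 h4
      have h6 := (ps_near hM0 huv).trans hM1'
      have h7 := (ps_near hM0 hxv).trans hM1'
      have h8 : ps M x = ps M u + (ps M v - ps M u) + (ps M x - ps M v) := by abel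
      rw [h8]
      refine (norm_add_le _ _).trans ?_
      have h9 := norm_add_le (ps M u) (ps M v - ps M u)
      rw [norm_sub_rev] at h6
      have h10 : r ≤ max r 0 := le_max_left _ _
      linarith)
    (by
      rw [hlin, hmap, List.map_append] at hM1
      rcases hM1 with h | h
      · rw [h]; exact one_ne_zero
      · rw [h]; exact neg_ne_zero.2 one_ne_zero)
  rw [List.length_map, lN] at hfin
  exact hfin

/-- The bottom class, along the grids `2 ^ M`. -/
theorem top_HR_two (F : Type*) [Field F] (n K : ℕ) [NeZero K] {R a : ℝ} (hR : 0 < R)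
    (ha : 0 < a) : ∀ᶠ M : ℕ in atTop, ¬ HR F (lam (Lc n K) (2 ^ M)) (Xm (qK n K) R (2 ^ M))
      (Am (qK n K) (QK n K) R a (2 ^ M)) (n * (K - 1)) 0 :=
  (tendsto_pow_atTop_atTop_of_one_lt one_lt_two).eventually (top_HR F n K hR ha)

end Pool.Agent.H16.TU
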