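import Pool.Agent.H47.ST.DomK
import Pool.Agent.H47.ST.Model

/-!
# Project TU: eigenbasis of the operator `DK`, number of negative eigenvalues
-/

set_option autoImplicit false

namespace Pool.Agent.H16.TU

open Pool.Agent.H47.ST

/-- spectral theorem for `DK`: an orthonormal basis of eigenvectors -/
theorem spec (n K : ℕ) [NeZero K] : ∃ (B : Matrix (Iz n K) (Iz n K) ℝ) (lam : Iz n K → ℝ),
    B * B.transpose = 1 ∧ B.transpose * B = 1 ∧ ∀ k a, DK n K (B k) a = lam k * B k a := by
  classical
  let A : Matrix (Iz n K) (Iz n K) ℝ := Matrix.of fun a b => DK n K (Pi.single b 1) a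
  have hmul : ∀ (t : Iz n K → ℝ), A.mulVec t = DK n K t := by
    intro t
    have h1 : A.mulVec t = ∑ b, t b • DK n K (Pi.single b 1) := by
      funext a
      simp only [A, Matrix.mulVec, dotProduct, Matrix.of_apply, Finset.sum_apply, Pi.smul_apply,
        smul_eq_mul]
      exact Finset.sum_congr rfl fun b _ => mul_comm _ _
    rw [h1]
    have h2 : t = ∑ b, t b • (Pi.single b (1 : ℝ) : Iz n K → ℝ) := by
      funext a
      simp [Finset.sum_apply, Pi.single_apply]
    conv_rhs => rw [h2]
    rw [← DomK_L_apply, map_sum]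
    refine Finset.sum_congr rfl fun b _ => ?_
    rw [map_smul, DomK_L_apply]
  have hsym : A.IsHermitian := by
    refine Matrix.IsHermitian.ext fun a b => ?_
    simp only [A, Matrix.of_apply, star_trivial]
    have h := DomK_adj (n := n) (K := K) (Pi.single a 1) (Pi.single b 1)
    simpa [Pi.single_apply] using h
  let B : Matrix (Iz n K) (Iz n K) ℝ := fun k a => hsym.eigenvectorBasis k a
  have h1 : B * B.transpose = 1 := by
    ext k l
    rw [Matrix.mul_apply, Matrix.one_apply]
    have h2 := hsym.eigenvectorBasis.orthonormal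
    rw [orthonormal_iff_ite] at h2
    have h3 := h2 k l
    rw [← h3]
    simp only [B, Matrix.transpose_apply, PiLp.inner_apply, RCLike.inner_apply, conj_trivial]
    exact Finset.sum_congr rfl fun a _ => mul_comm _ _
  refine ⟨B, hsym.eigenvalues, h1, mul_eq_one_comm.1 h1, fun k a => ?_⟩
  have h4 := hsym.mulVec_eigenvectorBasis k
  have h5 := congrFun h4 a
  have h6 : A.mulVec (B k) = DK n K (B k) := hmul _
  rw [← h6]
  exact h5

/-- coordinates in the eigenbasis -/
def cc {n K : ℕ} (B : Matrix (Iz n K) (Iz n K) ℝ) (t : Iz n K → ℝ) (k : Iz n K) : ℝ :=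
  ∑ a, B k a * t a

section coord

variable {n K : ℕ} [NeZero K] {B : Matrix (Iz n K) (Iz n K) ℝ} {lam : Iz n K → ℝ}

omit [NeZero K] in
theorem cc_add (s t : Iz n K → ℝ) (k : Iz n K) : cc B (s + t) k = cc B s k + cc B t k := by
  unfold cc
  rw [← Finset.sum_add_distrib]
  exact Finset.sum_congr rfl fun a _ => by rw [Pi.add_apply]; ring

omit [NeZero K] in
theorem cc_smul (r : ℝ) (t : Iz n K → ℝ) (k : Iz n K) : cc B (r • t) k = r * cc B t k := by
  unfold cc
  rw [Finset.mul_sum]
  exact Finset.sum_congr rfl fun a _ => by rw [Pi.smul_apply, smul_eq_mul]; ring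

omit [NeZero K] in
theorem cc_par (h2 : B.transpose * B = 1) (s t : Iz n K → ℝ) :
    ∑ a, s a * t a = ∑ k, cc B s k * cc B t k := by
  classical
  have h3 : ∀ a b, ∑ k, B k a * B k b = if a = b then 1 else 0 := by
    intro a b
    have h4 := congrFun (congrFun h2 a) b
    rw [Matrix.mul_apply, Matrix.one_apply] at h4
    exact h4
  have h5 : ∑ k, cc B s k * cc B t k = ∑ a, ∑ b, (s a * t b) * ∑ k, B k a * B k b := by
    have h6 : ∀ k, cc B s k * cc B t k = ∑ a, ∑ b, (s a * t b) * (B k a * B k b) := by
      intro k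
      unfold cc
      rw [Finset.sum_mul]
      refine Finset.sum_congr rfl fun a _ => ?_
      rw [Finset.mul_sum]
      exact Finset.sum_congr rfl fun b _ => by ring
    rw [Finset.sum_congr rfl fun k _ => h6 k, Finset.sum_comm]
    refine Finset.sum_congr rfl fun a _ => ?_
    rw [Finset.sum_comm]
    exact Finset.sum_congr rfl fun b _ => by rw [Finset.mul_sum]
  rw [h5]
  refine Finset.sum_congr rfl fun a _ => ?_
  rw [Finset.sum_congr rfl fun b _ => by rw [h3]]
  simp

omit [NeZero K] in
theorem cc_zero_iff (h2 : B.transpose * B = 1) {t : Iz n K → ℝ} (h : ∀ k, cc B t k = 0) :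
    t = 0 := by
  have h3 := cc_par h2 t t
  simp only [h, mul_zero, Finset.sum_const_zero] at h3
  funext a
  have h4 := (Finset.sum_eq_zero_iff_of_nonneg fun a _ => mul_self_nonneg (t a)).1 h3 a
    (Finset.mem_univ a)
  exact mul_self_eq_zero.1 h4

theorem cc_D (hB : ∀ k a, DK n K (B k) a = lam k * B k a) (t : Iz n K → ℝ) (k : Iz n K) :
    cc B (DK n K t) k = lam k * cc B t k := by
  unfold cc
  rw [← DomK_adj (B k) t, Finset.mul_sum]
  exact Finset.sum_congr rfl fun a _ => by rw [hB]; ring

theorem cc_QK (h2 : B.transpose * B = 1) (hB : ∀ k a, DK n K (B k) a = lam k * B k a)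
    (t : Iz n K → ℝ) : QK n K t = (∑ k, lam k * cc B t k ^ 2) / 2 := by
  rw [DomK_euler, cc_par h2]
  congr 1
  exact Finset.sum_congr rfl fun k _ => by rw [cc_D hB]; ring

theorem cc_D2 (h2 : B.transpose * B = 1) (hB : ∀ k a, DK n K (B k) a = lam k * B k a)
    (t : Iz n K → ℝ) : ∑ a, DK n K t a ^ 2 = ∑ k, lam k ^ 2 * cc B t k ^ 2 := by
  have h3 := cc_par h2 (DK n K t) (DK n K t)
  have h4 : ∑ a, DK n K t a ^ 2 = ∑ a, DK n K t a * DK n K t a :=
    Finset.sum_congr rfl fun a _ => pow_two _
  rw [h4, h3]
  exact Finset.sum_congr rfl fun k _ => by rw [cc_D hB]; ring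

theorem cc_qK (h2 : B.transpose * B = 1) (hB : ∀ k a, DK n K (B k) a = lam k * B k a)
    (t : Iz n K → ℝ) : qK n K t = ∑ k, (lam k + lam k ^ 2 / 4) * cc B t k ^ 2 := by
  unfold qK
  rw [cc_QK h2 hB, cc_D2 h2 hB, mul_div_cancel₀ _ two_ne_zero, Finset.sum_div,
    ← Finset.sum_add_distrib]
  exact Finset.sum_congr rfl fun k _ => by ring

theorem lam_le (h1 : B * B.transpose = 1) (hB : ∀ k a, DK n K (B k) a = lam k * B k a)
    (k : Iz n K) : |lam k| ≤ 2 := by
  classical
  have h3 := DomK_D2 (n := n) (K := K) (B k)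
  have h4 : ∑ a, B k a ^ 2 = 1 := by
    have h5 := congrFun (congrFun h1 k) k
    rw [Matrix.mul_apply, Matrix.one_apply, if_pos rfl] at h5
    rw [← h5]
    exact Finset.sum_congr rfl fun a _ => by rw [Matrix.transpose_apply]; ring
  have h6 : ∑ a, DK n K (B k) a ^ 2 = lam k ^ 2 * ∑ a, B k a ^ 2 := by
    rw [Finset.mul_sum]
    exact Finset.sum_congr rfl fun a _ => by rw [hB]; ring
  rw [h6, h4] at h3
  rw [abs_le]
  constructor <;> nlinarith

omit [NeZero K] in
theorem cc_B (h1 : B * B.transpose = 1) (k l : Iz n K) :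
    cc B (B l) k = if k = l then 1 else 0 := by
  have h5 := congrFun (congrFun h1 k) l
  rw [Matrix.mul_apply, Matrix.one_apply] at h5
  unfold cc
  simp only [Matrix.transpose_apply] at h5
  rw [h5]

omit [NeZero K] in
theorem cc_sum (h1 : B * B.transpose = 1) (P : Iz n K → Prop) [DecidablePred P]
    (w : {k // P k} → ℝ) (k : Iz n K) :
    cc B (∑ l, w l • B l.1) k = if h : P k then w ⟨k, h⟩ else 0 := by
  classical
  have h3 : cc B (∑ l, w l • B l.1) k = ∑ l, w l * cc B (B l.1) k := by
    unfold cc
    simp only [Finset.sum_apply, Pi.smul_apply, smul_eq_mul, Finset.mul_sum]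
    rw [Finset.sum_comm]
    refine Finset.sum_congr rfl fun l _ => Finset.sum_congr rfl fun a _ => ?_
    ring
  rw [h3, Finset.sum_congr rfl fun l _ => by rw [cc_B h1]]
  split_ifs with h
  · rw [Finset.sum_eq_single (⟨k, h⟩ : {k // P k})]
    · simp
    · intro l _ hl
      rw [if_neg (fun e => hl (Subtype.ext e.symm)), mul_zero]
    · intro h'
      exact absurd (Finset.mem_univ _) h'
  · refine Finset.sum_eq_zero fun l _ => ?_
    rw [if_neg (fun e => h (by rw [e]; exact l.2)), mul_zero]

/-- the number of negative eigenvalues -/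
theorem card_neg (h1 : B * B.transpose = 1) (h2 : B.transpose * B = 1)
    (hB : ∀ k a, DK n K (B k) a = lam k * B k a) [DecidablePred fun k => lam k < 0] :
    Fintype.card {k // lam k < 0} = n * (K - 1) := by
  classical
  have hK : 0 < K := NeZero.pos K
  have hcard : Fintype.card (Iz n K) = 2 * (n * K) := by
    simp only [Fintype.card_prod, Fintype.card_fin, Fintype.card_sum]
    ring
  have hsplit : Fintype.card {k // lam k < 0} + Fintype.card {k // ¬ lam k < 0} = 2 * (n * K) := by
    rw [← hcard, ← Fintype.card_sum]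
    exact Fintype.card_congr (Equiv.sumCompl _)
  have hQs : ∀ (P : Iz n K → Prop) [DecidablePred P] (w : {k // P k} → ℝ),
      QK n K (∑ l, w l • B l.1) = (∑ l : {k // P k}, lam l.1 * w l ^ 2) / 2 := by
    intro P _ w
    rw [cc_QK h2 hB]
    congr 1
    rw [← Fintype.sum_subtype_add_sum_subtype P]
    have e1 : ∑ k : {k // P k}, lam k.1 * cc B (∑ l, w l • B l.1) k.1 ^ 2 =
        ∑ l : {k // P k}, lam l.1 * w l ^ 2 := by
      refine Finset.sum_congr rfl fun k _ => ?_
      rw [cc_sum h1, dif_pos k.2]
    have e2 : ∑ k : {k // ¬ P k}, lam k.1 * cc B (∑ l, w l • B l.1) k.1 ^ 2 = 0 := by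
      refine Finset.sum_eq_zero fun k _ => ?_
      rw [cc_sum h1, dif_neg k.2]
      ring
    rw [e1, e2, add_zero]
  have hws : ∀ (P : Iz n K → Prop) [DecidablePred P] (w : {k // P k} → ℝ),
      ∑ l, w l • B l.1 = 0 → w = 0 := by
    intro P _ w h
    funext k
    have h3 := cc_sum h1 P w k.1
    rw [h, dif_pos k.2] at h3
    have h4 : cc B (0 : Iz n K → ℝ) k.1 = 0 := by
      unfold cc
      simp
    rw [h4] at h3
    exact h3.symm
  have hneg : ∀ t : Iz n K → ℝ, QK n K (-t) = QK n K t := by
    intro t
    unfold QK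
    refine Finset.sum_congr rfl fun j _ => Finset.sum_congr rfl fun i _ => ?_
    simp only [Pi.neg_apply]
    ring
  -- upper bound
  have hA : n * (K - 1) + 2 * n + Fintype.card {k // lam k < 0} ≤ 2 * (n * K) := by
    let f : ((Fin (K - 1) × Fin n → ℝ) × (Fin n ⊕ Fin n → ℝ) × ({k // lam k < 0} → ℝ)) →ₗ[ℝ]
        (Iz n K → ℝ) :=
      { toFun := fun x => Model_phi n K 1 x.1 + (fun a => x.2.1 a.2) + ∑ l, x.2.2 l • B l.1
        map_add' := by
          intro x y
          simp only [Prod.fst_add, Prod.snd_add, map_add, Pi.add_apply, add_smul,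
            Finset.sum_add_distrib]
          funext a
          simp only [Pi.add_apply]
          ring
        map_smul' := by
          intro r x
          simp only [Prod.smul_fst, Prod.smul_snd, map_smul, Pi.smul_apply, smul_eq_mul,
            mul_smul, ← Finset.smul_sum, RingHom.id_apply]
          funext a
          simp only [Pi.add_apply, Pi.smul_apply, smul_eq_mul]
          ring }
    have hf : Function.Injective f := by
      rw [← LinearMap.ker_eq_bot, LinearMap.ker_eq_bot']
      rintro ⟨u, c, w⟩ h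
      have h3 : Model_phi n K 1 u + (fun a => c a.2) + ∑ l, w l • B l.1 = 0 := h
      have h4 : Model_phi n K 1 u + (fun a => c a.2) = -∑ l, w l • B l.1 :=
        eq_neg_of_add_eq_zero_left h3
      have h5 := congrArg (QK n K) h4
      have hDc : ∀ a, DK n K (fun a : Iz n K => c a.2) a = 0 := by
        rintro ⟨j, i | i⟩
        · rw [DomK_inl]; simp
        · rw [DomK_inr]; simp
      rw [(DomK_const _ _ hDc).1, Model_phi_pos, hneg, hQs] at h5
      have h6 : ∑ l : {k // lam k < 0}, lam l.1 * w l ^ 2 ≤ 0 :=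
        Finset.sum_nonpos fun l _ => mul_nonpos_of_nonpos_of_nonneg l.2.le (sq_nonneg _)
      have h7 : 0 ≤ ∑ l, u l ^ 2 := Finset.sum_nonneg fun l _ => sq_nonneg _
      have h8 : ∑ l, u l ^ 2 = 0 := by linarith
      have hu : u = 0 := by
        funext l
        have h9 := (Finset.sum_eq_zero_iff_of_nonneg fun l _ => sq_nonneg (u l)).1 h8 l
          (Finset.mem_univ l)
        exact pow_eq_zero_iff two_ne_zero |>.1 h9
      have h10 : ∑ l : {k // lam k < 0}, lam l.1 * w l ^ 2 = 0 := by linarith
      have hw : w = 0 := by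
        funext l
        have h11 : ∑ l : {k // lam k < 0}, -(lam l.1 * w l ^ 2) = 0 := by
          rw [Finset.sum_neg_distrib, h10, neg_zero]
        have h9 := (Finset.sum_eq_zero_iff_of_nonneg fun l _ => neg_nonneg.2
          (mul_nonpos_of_nonpos_of_nonneg l.2.le (sq_nonneg (w l)))).1 h11 l (Finset.mem_univ l)
        have h12 : lam l.1 * w l ^ 2 = 0 := by linarith
        rcases mul_eq_zero.1 h12 with h13 | h13
        · exact absurd h13 l.2.ne
        · exact pow_eq_zero_iff two_ne_zero |>.1 h13
      have hc : c = 0 := by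
        subst hu hw
        simp only [map_zero, zero_add, Pi.zero_apply, zero_smul, Finset.sum_const_zero,
          add_zero] at h3
        funext b
        exact congrFun h3 ((0 : Fin K), b)
      rw [hu, hw, hc]
      rfl
    have h3 := LinearMap.finrank_le_finrank_of_injective hf
    simp only [Module.finrank_prod, Module.finrank_fintype_fun_eq_card, Fintype.card_prod,
      Fintype.card_fin, Fintype.card_sum] at h3
    nlinarith
  -- lower bound
  have hC : n * (K - 1) + Fintype.card {k // ¬ lam k < 0} ≤ 2 * (n * K) := by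
    let f : ((Fin (K - 1) × Fin n → ℝ) × ({k // ¬ lam k < 0} → ℝ)) →ₗ[ℝ] (Iz n K → ℝ) :=
      { toFun := fun x => Model_phi n K (-1) x.1 + ∑ l, x.2 l • B l.1
        map_add' := by
          intro x y
          simp only [Prod.fst_add, Prod.snd_add, map_add, Pi.add_apply, add_smul,
            Finset.sum_add_distrib]
          funext a
          simp only [Pi.add_apply]
          ring
        map_smul' := by
          intro r x
          simp only [Prod.smul_fst, Prod.smul_snd, map_smul, Pi.smul_apply, smul_eq_mul,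
            mul_smul, ← Finset.smul_sum, RingHom.id_apply]
          funext a
          simp only [Pi.add_apply, Pi.smul_apply, smul_eq_mul]
          ring }
    have hf : Function.Injective f := by
      rw [← LinearMap.ker_eq_bot, LinearMap.ker_eq_bot']
      rintro ⟨u, w⟩ h
      have h3 : Model_phi n K (-1) u + ∑ l, w l • B l.1 = 0 := h
      have h4 : Model_phi n K (-1) u = -∑ l, w l • B l.1 :=
        eq_neg_of_add_eq_zero_left h3
      have h5 := congrArg (QK n K) h4
      rw [Model_phi_neg, hneg, hQs] at h5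
      have h6 : 0 ≤ ∑ l : {k // ¬ lam k < 0}, lam l.1 * w l ^ 2 :=
        Finset.sum_nonneg fun l _ => mul_nonneg (not_lt.1 l.2) (sq_nonneg _)
      have h7 : 0 ≤ ∑ l, u l ^ 2 := Finset.sum_nonneg fun l _ => sq_nonneg _
      have h8 : ∑ l, u l ^ 2 = 0 := by linarith
      have hu : u = 0 := by
        funext l
        have h9 := (Finset.sum_eq_zero_iff_of_nonneg fun l _ => sq_nonneg (u l)).1 h8 l
          (Finset.mem_univ l)
        exact pow_eq_zero_iff two_ne_zero |>.1 h9
      have hw : w = 0 := by
        refine hws _ w ?_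
        rw [hu, map_zero, zero_add] at h3
        exact h3
      rw [hu, hw]
      rfl
    have h3 := LinearMap.finrank_le_finrank_of_injective hf
    simp only [Module.finrank_prod, Module.finrank_fintype_fun_eq_card, Fintype.card_prod,
      Fintype.card_fin, Fintype.card_sum] at h3
    nlinarith
  have h9 : n * (K - 1) + n = n * K := by
    obtain ⟨m, rfl⟩ : ∃ m, K = m + 1 := ⟨K - 1, by omega⟩
    rw [Nat.add_sub_cancel]
    ring
  omega

end coord

end Pool.Agent.H16.TU
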